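import Pool.Agent.L7h99.AE.Fin
import Pool.Agent.L7h26.AE.Dec
import Pool.Agent.L7h73.AE.Poi
import Pool.Agent.L7h73.AE.Cac

/-!
# Band edges of the Bernoulli Anderson model: doubly exponentially small exceptional sets

`Δ_ω = -(discrete Laplacian) + ω` on `ℤ^d`, `ω` fair signs, spectrum `[-1, 4 d + 1]`. In every
dimension `d ≥ 2` there is a deterministic set `S` of energies such that almost surely `Δ_ω` has no
absolutely continuous spectrum in `S`, and `S` misses only a set of measure
`exp(-exp(c η^(-d/2)))` of the energies within `η` of the two band edges. The exponent `d/2` is that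
of the Lifshitz tail of the density of states.

Proof: a Poincaré inequality with holes and a Caccioppoli inequality for the subsolution `|u|` give
decay of solutions at energies within `δ` of the edges in cubes of side `exp(c δ^(-d/2))`, where with
high probability the barriers have density at least `1/4` on the scale `δ^(-1/2)`; multiscale
analysis at almost all energies with resonance threshold `exp(-√L₀)` at the initial scale.
Parts: S_POI, S_CAC by helper73, S_CUT, S_DEC by helper26.
-/

set_option autoImplicit false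

open MeasureTheory

namespace Pool.Agent.Results.MP_d0f69c_mp.EdgeDoubleExponential

/-- The Hilbert space `ℓ²(ℤᵈ)`. -/
def L2 (d : ℕ) : Type := lp (fun _ : Fin d → ℤ => ℂ) 2

/-- The `ℓ²` norm. -/
noncomputable instance instNorm (d : ℕ) : NormedAddCommGroup (L2 d) :=
  @lp.normedAddCommGroup (Fin d → ℤ) (fun _ => ℂ) 2 _ _

/-- The `ℓ²` inner product. -/
noncomputable instance instInner (d : ℕ) : InnerProductSpace ℂ (L2 d) :=
  @lp.instInnerProductSpace (Fin d → ℤ) ℂ _ (fun _ => ℂ) _ _

/-- The underlying function of a vector of `ℓ²(ℤᵈ)`. -/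
def coord {d : ℕ} (u : L2 d) : (Fin d → ℤ) → ℂ := (show lp (fun _ : Fin d → ℤ => ℂ) 2 from u)

/-- Bounded linear operators on a complex inner product space. -/
abbrev Op (E : Type) [NormedAddCommGroup E] [InnerProductSpace ℂ E] : Type := E →L[ℂ] E

/-- `-(discrete Laplacian) + ω` on functions (`true` codes `+1`, `false` codes `-1`). -/
noncomputable def act {d : ℕ} (ω : (Fin d → ℤ) → Bool) (u : (Fin d → ℤ) → ℂ)
    (j : Fin d → ℤ) : ℂ :=
  -(∑ i : Fin d, ((u (j + Pi.single i 1) - u j) + (u (j - Pi.single i 1) - u j)))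
    + (if ω j then (1 : ℂ) else -1) * u j

/-- The bounded operator `H` on `ℓ²(ℤᵈ)` acts as `-(discrete Laplacian) + ω`. -/
def IsAnderson {d : ℕ} (ω : (Fin d → ℤ) → Bool) (H : Op (L2 d)) : Prop :=
  ∀ u : L2 d, coord (H u) = act ω (coord u)

/-- `(H - z)⁻¹` -/
noncomputable def res {E : Type} [NormedAddCommGroup E] [InnerProductSpace ℂ E] (H : Op E) (z : ℂ) :
    Op E :=
  Ring.inverse (H - z • (1 : Op E))

/-- `μ` is the spectral measure of `ψ`: a finite measure with Borel transform
`⟨ψ, (H - z)⁻¹ ψ⟩` off the real line. -/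
def IsSpectralMeasure {E : Type} [NormedAddCommGroup E] [InnerProductSpace ℂ E]
    (H : Op E) (ψ : E) (μ : Measure ℝ) : Prop :=
  IsFiniteMeasure μ ∧ ∀ z : ℂ, z.im ≠ 0 →
    ∫ x, ((x : ℂ) - z)⁻¹ ∂μ = inner ℂ ψ (res H z ψ)

/-- The law of a fair `±1` potential on `ℤᵈ`. -/
noncomputable def coin (d : ℕ) : Measure ((Fin d → ℤ) → Bool) :=
  Measure.infinitePi (fun _ => (PMF.uniformOfFintype Bool).toMeasure)

/-- For every `d ≥ 2` there are `c > 0` and a (deterministic) measurable set `S` of energies such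
that almost surely there is no absolutely continuous spectrum in `S` (the restriction to `S` of every
spectral measure is singular), and for all small `η` the energies in `(-1, -1 + η)` and in
`(4 d + 1 - η, 4 d + 1)` outside `S` have measure at most `exp(-exp(c η^(-d/2)))`. -/
theorem result (d : ℕ) (hd : 2 ≤ d) :
    ∃ (c : ℝ) (S : Set ℝ), 0 < c ∧ MeasurableSet S ∧
      (∃ η₀ : ℝ, 0 < η₀ ∧ ∀ η : ℝ, 0 < η → η < η₀ →
        volume (Set.Ioo (-1 : ℝ) (-1 + η) \ S) ≤
          ENNReal.ofReal (Real.exp (-Real.exp (c * η ^ (-(d : ℝ) / 2)))) ∧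
        volume (Set.Ioo (4 * (d : ℝ) + 1 - η) (4 * (d : ℝ) + 1) \ S) ≤
          ENNReal.ofReal (Real.exp (-Real.exp (c * η ^ (-(d : ℝ) / 2))))) ∧
      ∀ᵐ ω ∂(coin d), ∀ H : Op (L2 d), IsAnderson ω H →
        ∀ (ψ : L2 d) (μ : Measure ℝ), IsSpectralMeasure H ψ μ → (μ.restrict S) ⟂ₘ volume := by
  have hd0 : (0 : ℝ) < d := by exact_mod_cast (by omega : 0 < d)
  have hl : 0 < Real.log 2 := Real.log_pos (by norm_num)
  refine ⟨Real.log 2 / (2 * (56 * d + 14) * (16 * d : ℝ) ^ ((d : ℝ) / 2)), L7h99.AE.SS d,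
    by positivity, L7h99.AE.measurableSet_SS, L7h99.AE.small hd, ?_⟩
  have h := L7h99.AE.sing (L7h26.AE.dec L7h73.AE.s_POI L7h73.AE.s_CAC) hd
  filter_upwards [h] with ω hω H hH ψ μ hμ
  exact hω H (fun u j => congrFun (hH u) j) ψ μ hμ.1 hμ.2

end Pool.Agent.Results.MP_d0f69c_mp.EdgeDoubleExponential
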