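import Pool.Agent.L7h83.WM.Ft

/-!
# Absolutely continuous states of the Anderson model have no Fourier modes in space-time

`Δ_ω = -Δ + ω` on `ℤ^d`, `ω_j` iid with any law of bounded support which is not a point mass, for
instance `P(ω_j = ±1) = 1/2`. Let `A_ω` be any measurable bounded covariant family of operators and
let `(λ, θ)` be a frequency with `λ ≠ 0` or `θ ∉ 2πℤ^d`. For almost every `ω` the time averages of
`e^{iλs} e^{isΔ_ω} e^{iθ·x} A_ω e^{-isΔ_ω} ψ` tend to zero for every `ψ` in the absolutely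
continuous subspace of `Δ_ω` (if there is one). So for almost every `ω`, in every such state, the
fraction of time spent in each residue class modulo `m` tends to `m^{-d}`, and the fraction of time
spent in a slab of bounded width tends to zero, uniformly in the position of the slab.
-/

set_option autoImplicit false

open MeasureTheory Filter Topology
open scoped BigOperators ENNReal NNReal InnerProductSpace

namespace Pool.Agent.Results.MP_d0f69c_mp.EquidistributionACStates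

/-- `ℓ²(ℤ^d)` -/
abbrev L2 (d : ℕ) : Type := lp (fun _ : Fin d → ℤ => ℂ) 2

/-- potentials on `ℤ^d` -/
abbrev Pot (d : ℕ) : Type := (Fin d → ℤ) → ℝ

/-- the operator of the problem, `(Δ_ω u)(j) = -∑_{|n|=1} (u(j+n) - u(j)) + ω_j u(j)` (the unit
vectors `n` are `± e_i`) -/
noncomputable def H {d : ℕ} (ω : Pot d) (u : (Fin d → ℤ) → ℂ) (j : Fin d → ℤ) : ℂ :=
  -(∑ i : Fin d, ((u (j + Pi.single i 1) - u j) + (u (j - Pi.single i 1) - u j))) + (ω j : ℂ) * u j

/-- `U t = e^{-itΔ_ω}`: norm preserving maps of `ℓ²(ℤ^d)` with `U 0 = 1` and `i ∂_t (U_t u) = Δ_ω U_t u`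
at every site -/
structure IsPropagator {d : ℕ} (ω : Pot d) (U : ℝ → L2 d → L2 d) : Prop where
  zero : ∀ u, U 0 u = u
  norm : ∀ t u, ‖U t u‖ = ‖u‖
  schrodinger : ∀ u t j, HasDerivAt (fun s => (U s u) j)
    (-Complex.I * H ω (fun k => (U t u) k) j) t

/-- `m` is the spectral measure of `u`: the finite measure with
`⟨u, e^{-itΔ_ω} u⟩ = ∫ e^{-itE} dm(E)` -/
def IsSpectral {d : ℕ} (U : ℝ → L2 d → L2 d) (u : L2 d) (m : Measure ℝ) : Prop :=
  IsFiniteMeasure m ∧
    ∀ t : ℝ, ⟪u, U t u⟫_ℂ = ∫ E : ℝ, Complex.exp (-(Complex.I * t * E)) ∂m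

/-- `u` is in the absolutely continuous subspace -/
def IsAC {d : ℕ} (U : ℝ → L2 d → L2 d) (u : L2 d) : Prop :=
  ∃ m : Measure ℝ, IsSpectral U u m ∧ m ≪ volume

/-- the law of iid variables with law `μ` on `ℤ^d` -/
noncomputable def iid (d : ℕ) (μ : Measure ℝ) : Measure (Pot d) :=
  Measure.infinitePi fun _ => μ

/-- linear operators -/
def Linear {d : ℕ} (A : Pot d → L2 d → L2 d) : Prop :=
  ∀ (ω : Pot d) (c : ℂ) (u w : L2 d), A ω (c • u + w) = c • A ω u + A ω w

/-- bounded, uniformly in `ω` -/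
def Bounded {d : ℕ} (A : Pot d → L2 d → L2 d) : Prop :=
  ∃ M : ℝ, ∀ (ω : Pot d) (u : L2 d), ‖A ω u‖ ≤ M * ‖u‖

/-- covariant under translations -/
def Covariant {d : ℕ} (A : Pot d → L2 d → L2 d) : Prop :=
  ∀ (z : Fin d → ℤ) (ω : Pot d) (u w : L2 d), (∀ j, w j = u (j + z)) →
    ∀ j, (A (fun k => ω (k + z)) w) j = (A ω u) (j + z)

/-- `A_ω` is an observable: a family of bounded operators, bounded uniformly in `ω`, measurable in
`ω` and covariant under translations. No locality and no continuity in `ω` is assumed. Examples are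
all bounded translation invariant operators and all bounded Borel functions of `Δ_ω`. -/
structure IsObservable {d : ℕ} (μ : Measure ℝ) (A : Pot d → L2 d → L2 d) : Prop where
  linear : Linear A
  bounded : Bounded A
  measurable : ∀ u : L2 d, AEStronglyMeasurable (fun ω => A ω u) (iid d μ)
  covariant : Covariant A

/-- `E` is multiplication by the function `g` -/
def IsMultiplication {d : ℕ} (g : (Fin d → ℤ) → ℂ) (E : L2 d → L2 d) : Prop :=
  ∀ u j, (E u) j = g j * u j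

/-- the plane wave `e^{iθ·x}` -/
noncomputable def wave {d : ℕ} (θ : Fin d → ℝ) (x : Fin d → ℤ) : ℂ :=
  Complex.exp (Complex.I * ∑ i, (θ i : ℂ) * (x i : ℂ))

/-- `θ ∉ 2πℤ^d`, that is, the plane wave is not constant on `ℤ^d` -/
def IsFrequency {d : ℕ} (θ : Fin d → ℝ) : Prop := ∃ i, ∀ n : ℤ, θ i ≠ 2 * Real.pi * n

/-- `g` is Bohr almost periodic with mean value `m`: it can be approximated uniformly on `ℤ^d` by
the sum of `m` and of a combination of finitely many plane waves which are not constant -/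
def IsAlmostPeriodic {d : ℕ} (g : (Fin d → ℤ) → ℂ) (m : ℂ) : Prop :=
  ∀ ε : ℝ, 0 < ε → ∃ (F : Finset (Fin d → ℝ)) (c : (Fin d → ℝ) → ℂ),
    (∀ θ ∈ F, IsFrequency θ) ∧ ∀ x, ‖g x - m - ∑ θ ∈ F, c θ * wave θ x‖ ≤ ε

/-- the average over `0 ≤ s ≤ T` of `e^{iλs} e^{isΔ_ω} A e^{-isΔ_ω} u` -/
noncomputable def average {d : ℕ} (U : ℝ → L2 d → L2 d) (l : ℝ) (A : L2 d → L2 d) (T : ℝ)
    (u : L2 d) : L2 d :=
  ((T : ℂ)⁻¹) • ∫ s in (0 : ℝ)..T, Complex.exp (Complex.I * (l * s)) • U (-s) (A (U s u))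

/-- the average over `0 ≤ s ≤ T` of the probability that the particle is in `S` at the time `s`,
`∑_{x ∈ S} |(e^{-isΔ_ω} u)(x)|²` -/
noncomputable def occupation {d : ℕ} (U : ℝ → L2 d → L2 d) (u : L2 d) (T : ℝ)
    (S : Set (Fin d → ℤ)) : ℝ :=
  T⁻¹ * ∫ s in (0 : ℝ)..T, ∑' x : S, ‖(U s u) x‖ ^ 2

/-- almost surely, `Q ω ψ` holds for every `ψ` in the absolutely continuous subspace of `Δ_ω` -/
def ForACStates {d : ℕ} (μ : Measure ℝ) (U : Pot d → ℝ → L2 d → L2 d)
    (Q : Pot d → L2 d → Prop) : Prop :=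
  ∀ᵐ ω ∂(iid d μ), ∀ ψ : L2 d, IsAC (U ω) ψ → Q ω ψ

/-- the averages of `e^{iλs} e^{isΔ_ω} A e^{-isΔ_ω} ψ` over `0 ≤ s ≤ T` tend to zero as `T → ∞` -/
def Vanishes {d : ℕ} (U : ℝ → L2 d → L2 d) (l : ℝ) (A : L2 d → L2 d) (ψ : L2 d) : Prop :=
  Tendsto (fun T : ℝ => average U l A T ψ) atTop (𝓝 0)

/-- the difference of the time averages of `B` and of `m A` applied to `ψ` tends to zero -/
def Equivalent {d : ℕ} (U : ℝ → L2 d → L2 d) (B A : L2 d → L2 d) (m : ℂ) (ψ : L2 d) : Prop :=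
  Tendsto (fun T : ℝ => average U 0 B T ψ - m • average U 0 A T ψ) atTop (𝓝 0)

/-- the fraction of time spent in each residue class modulo `m` tends to `‖ψ‖² / m^d` -/
def Equidistributes {d : ℕ} (U : ℝ → L2 d → L2 d) (m : ℕ) (ψ : L2 d) : Prop :=
  ∀ r : Fin d → ℤ, Tendsto (fun T : ℝ => occupation U ψ T {x | ∀ i, x i ≡ r i [ZMOD m]}) atTop
    (𝓝 (‖ψ‖ ^ 2 / (m : ℝ) ^ d))

/-- for every width `w` the fraction of time spent in the slab `|e·x - c| ≤ w` tends to zero,
uniformly in `c` -/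
def LeavesSlabs {d : ℕ} (U : ℝ → L2 d → L2 d) (e : Fin d → ℝ) (ψ : L2 d) : Prop :=
  ∀ w ε : ℝ, 0 < ε → ∃ T₀ : ℝ, ∀ T : ℝ, T₀ ≤ T → ∀ c : ℝ,
    occupation U ψ T {x | |∑ i, e i * (x i : ℝ) - c| ≤ w} ≤ ε

open Pool.Agent.H5R2 Pool.Agent.Y662.ERG Pool.Agent.L7h83.WM

theorem sol_of_prop {d : ℕ} {ω : (Fin d → ℤ) → ℝ} {U : ℝ → L2 d → L2 d}
    (hU : IsPropagator ω U) (u : L2 d) :
    NB.IsSol (-1) (fun x => 2 * d + ω x) (fun t => U t u) (fun _ => 0) := by
  refine ⟨fun T => ⟨‖u‖, fun t _ => (hU.norm t u).le⟩, fun t x => ?_⟩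
  have h := hU.schrodinger u t x
  have e := NB.FIN.hop_eq ω (fun k => (U t u) k) x
  have e2 : -Complex.I * (NB.hopf (-1) (fun y => (U t u) y) x +
      (((fun x => 2 * d + ω x) x : ℝ) : ℂ) * (U t u) x) + ((0 : L2 d) : (Fin d → ℤ) → ℂ) x =
      -Complex.I * H ω (fun k => (U t u) k) x := by
    have e3 : H ω (fun k => (U t u) k) x = -(∑ i : Fin d,
        (((U t u) (x + Pi.single i 1) - (U t u) x) + ((U t u) (x - Pi.single i 1) - (U t u) x))) +
        (ω x : ℂ) * (U t u) x := rfl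
    rw [e3, ← e]
    simp
  rw [e2]
  exact h

theorem prop_of_grp {d : ℕ} {ω : (Fin d → ℤ) → ℝ} {W : NB.UG (NB.L2 (NB.Site d))}
    (hW : NB.IsGrp (-1) (fun x => 2 * d + ω x) W) : IsPropagator ω (fun t u => W.U t u) := by
  refine ⟨W.zero', W.norm', fun u t x => ?_⟩
  have h := (hW u).2 t x
  have e := NB.FIN.hop_eq ω (fun k => (W.U t u) k) x
  have e3 : H ω (fun k => (W.U t u) k) x = -(∑ i : Fin d,
        (((W.U t u) (x + Pi.single i 1) - (W.U t u) x) +
          ((W.U t u) (x - Pi.single i 1) - (W.U t u) x))) + (ω x : ℂ) * (W.U t u) x := rfl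
  rw [e3, ← e]
  simpa using h

theorem prop_eq {d : ℕ} {ω : (Fin d → ℤ) → ℝ} {W : NB.UG (NB.L2 (NB.Site d))}
    (hW : NB.IsGrp (-1) (fun x => 2 * d + ω x) W) {U : ℝ → L2 d → L2 d}
    (hU : IsPropagator ω U) (t : ℝ) (u : L2 d) : U t u = W.U t u := by
  have h := NB.ALL.a_UN d (-1) _ W hW (fun t => U t u) (fun _ => 0)
    continuous_const (sol_of_prop hU u) t
  simpa [hU.zero u] using h

theorem wave_eq {d : ℕ} (θ : Fin d → ℝ) (x : Fin d → ℤ) : wave θ x = wv θ x := by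
  unfold wave wv
  push_cast
  rfl

/-- the bounded operator -/
noncomputable def toOp {d : ℕ} {A : Pot d → L2 d → L2 d} (hl : Linear A) (hb : Bounded A)
    (ω : Pot d) : L2 d →L[ℂ] L2 d :=
  LinearMap.mkContinuousOfExistsBound
    { toFun := A ω
      map_add' := fun u w => by
        have := hl ω 1 u w
        rwa [one_smul, one_smul] at this
      map_smul' := fun c u => by
        have h1 := hl ω c u 0
        have h2 := hl ω (-1) 0 0
        rw [smul_zero, add_zero, neg_one_smul, neg_add_cancel] at h2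
        rw [add_zero, h2, add_zero] at h1
        exact h1 } (by
      obtain ⟨M, hM⟩ := hb
      exact ⟨M, hM ω⟩)

/-- an observable agrees almost surely with a measurable field -/
theorem field_of {d : ℕ} {μ : Measure ℝ} [IsProbabilityMeasure μ]
    {A₀ : Pot d → L2 d → L2 d} (hA : IsObservable μ A₀) :
    ∃ (C : ℝ) (B B' : Pot d → L2 d →L[ℂ] L2 d), FT (fun _ => 1) C B B' ∧
      ∀ᵐ ω ∂(iid d μ), ∀ u, A₀ ω u = B ω u := by
  obtain ⟨M, hM⟩ := hA.bounded
  have hM0 : 0 ≤ M := by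
    have h1 := hM 0 (NB.dl 0)
    rw [NB.STAT.norm_dl, mul_one] at h1
    exact (norm_nonneg _).trans h1
  set A : Pot d → L2 d →L[ℂ] L2 d := toOp hA.linear hA.bounded with hAdef
  have hAu : ∀ ω u, A ω u = A₀ ω u := fun ω u => rfl
  have hAn : ∀ ω, ‖A ω‖ ≤ M := fun ω => ContinuousLinearMap.opNorm_le_bound _ hM0 (hM ω)
  have hcov : ∀ (z : NB.Site d) (S : L2 d →L[ℂ] L2 d), NB.IsShift z S → ∀ V ψ,
      A (fun y => V (y + z)) (S ψ) = S (A V ψ) := by
    intro z S hS V ψ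
    ext j
    rw [hS]
    exact hA.covariant z V ψ (S ψ) (fun k => hS ψ k) j
  have hcov' : ∀ (z : NB.Site d) (S : L2 d →L[ℂ] L2 d), NB.IsShift z S → ∀ V ψ,
      (ContinuousLinearMap.adjoint (A fun y => V (y + z))) (S ψ) =
        S (ContinuousLinearMap.adjoint (A V) ψ) := by
    intro z S hS V ψ
    obtain ⟨T, hT⟩ := (NB.t_OPS d).1 (-z)
    refine ext_inner_left ℂ fun f => ?_
    have h1 : S (T f) = f := NBA.ZAC.inv1 hS hT f
    rw [ContinuousLinearMap.adjoint_inner_right]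
    conv_lhs => rw [← h1]
    rw [hcov z S hS, NB.STAT.shift_inner z S T hS hT, NBA.ZAC.inv2 hS hT]
    have h2 : ⟪T f, ContinuousLinearMap.adjoint (A V) ψ⟫_ℂ =
        ⟪f, S (ContinuousLinearMap.adjoint (A V) ψ)⟫_ℂ := by
      have hS2 : NB.IsShift (-(-z)) S := by rw [neg_neg]; exact hS
      exact NB.STAT.shift_inner (-z) T S hT hS2 f _
    rw [← h2, ContinuousLinearMap.adjoint_inner_right]
  obtain ⟨B, B', h1, h2, _⟩ := exists_mod (χ := fun _ => 1) (C := M) (A := A)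
    (A' := fun V => ContinuousLinearMap.adjoint (A V)) μ
    (fun V f g => (ContinuousLinearMap.adjoint_inner_right (A V) f g).symm)
    (fun V ψ => ((A V).le_opNorm ψ).trans (mul_le_mul_of_nonneg_right (hAn V) (norm_nonneg _)))
    (fun V ψ => ((ContinuousLinearMap.adjoint (A V)).le_opNorm ψ).trans
      (mul_le_mul_of_nonneg_right (by rw [LinearIsometryEquiv.norm_map]; exact hAn V)
        (norm_nonneg _)))
    (fun x => hA.measurable _) (fun z => by simp)
    (fun z S hS V ψ => by rw [one_smul]; exact hcov z S hS V ψ)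
    (fun z S hS V ψ => by rw [map_one, one_smul]; exact hcov' z S hS V ψ)
  refine ⟨M, B, B', h1, h2.mono fun V hV u => ?_⟩
  rw [hV.1]
  rfl

/-- Let `d ≥ 1` and let `μ` be a law with bounded support which is not a point mass. For every
potential the unitary group exists and is unique, and:
(1) for every observable `A` and every `(λ, θ)` with `λ ≠ 0` or `θ ∉ 2πℤ^d`, almost surely for every
`ψ` in the absolutely continuous subspace of `Δ_ω` the average over `0 ≤ s ≤ T` of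
`e^{iλs} e^{isΔ_ω} e^{iθ·x} A_ω e^{-isΔ_ω} ψ` tends to zero as `T → ∞`;
(2) for every observable `A` and every almost periodic function `g` on `ℤ^d` with mean value `m`,
almost surely for every such `ψ` the difference of the time averages of `g A_ω` and of `m A_ω`
applied to `ψ` tends to zero;
(3) almost surely, for every such `ψ`, the fraction of time spent in each residue class modulo `m`
tends to `‖ψ‖² / m^d`;
(4) for every direction `e ≠ 0`, almost surely for every such `ψ` and every `w` the fraction of time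
spent in the slab `|e·x - c| ≤ w` tends to zero, uniformly in `c`. -/
theorem result (d : ℕ) (hd : 1 ≤ d) (μ : Measure ℝ) [IsProbabilityMeasure μ]
    (hb : ∃ K : ℝ, ∀ᵐ r ∂μ, |r| ≤ K) (hμ : ∀ r : ℝ, μ {r} ≠ 1) :
    (∀ ω : Pot d, ∃! U : ℝ → L2 d → L2 d, IsPropagator ω U) ∧
    ∀ U : Pot d → ℝ → L2 d → L2 d, (∀ ω, IsPropagator ω (U ω)) →
      (∀ A : Pot d → L2 d → L2 d, IsObservable μ A →
        ∀ (l : ℝ) (θ : Fin d → ℝ), l ≠ 0 ∨ IsFrequency θ →
          ∃ E : L2 d → L2 d, IsMultiplication (wave θ) E ∧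
            ForACStates μ U fun ω ψ => Vanishes (U ω) l (fun u => E (A ω u)) ψ) ∧
      (∀ A : Pot d → L2 d → L2 d, IsObservable μ A →
        ∀ (g : (Fin d → ℤ) → ℂ) (m : ℂ), IsAlmostPeriodic g m →
          ∃ E : L2 d → L2 d, IsMultiplication g E ∧
            ForACStates μ U fun ω ψ => Equivalent (U ω) (fun u => E (A ω u)) (A ω) m ψ) ∧
      (ForACStates μ U fun ω ψ => ∀ m : ℕ, 1 ≤ m → Equidistributes (U ω) m ψ) ∧
      (∀ e : Fin d → ℝ, e ≠ 0 → ForACStates μ U fun ω ψ => LeavesSlabs (U ω) e ψ) := by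
  obtain ⟨K, hK⟩ := hb
  refine ⟨fun ω => ?_, fun U hU => ?_⟩
  · obtain ⟨W, hW⟩ := NB.ALL.a_EX d (-1) (fun x => 2 * d + ω x)
    refine ⟨fun t u => W.U t u, prop_of_grp hW, fun U hU => ?_⟩
    funext t u
    exact prop_eq hW hU t u
  choose ev hev using fun ω : NB.Site d → ℝ => NB.ALL.a_EX d (-1) (fun x => 2 * d + ω x)
  have hUe : ∀ ω t u, U ω t u = (ev ω).U t u := fun ω t u => prop_eq (hev ω) (hU ω) t u
  have hac : ∀ᵐ ω ∂(iid d μ), ∀ u : L2 d, IsAC (U ω) u →
      Pool.Agent.TH980.IM.spm (Pool.Agent.TH980.IM.HV_sa K ω) u ≪ volume := by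
    have hbd' : ∀ᵐ ω ∂(iid d μ), ∀ x, |ω x| ≤ K := bd_ae (d := d) hK
    filter_upwards [hbd'] with ω h1 u
    have hUx : ∀ t u, U ω t u = Ex (Pool.Agent.TH980.IM.HV K ω) t u := fun t u => by
      rw [hUe, grp_Ex h1 (hev ω)]
    rintro ⟨m, ⟨hm1, hm2⟩, hm3⟩
    have hmm : m = Pool.Agent.TH980.IM.spm (Pool.Agent.TH980.IM.HV_sa K ω) u :=
      spm_unique _ u m fun t => by rw [← hUx, hm2 t]
    rw [← hmm]
    exact hm3
  have hav : ∀ (ω : Pot d) (l : ℝ) (B : L2 d → L2 d) (B' : L2 d →L[ℂ] L2 d), (∀ u, B u = B' u) →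
      ∀ T u, average (U ω) l B T u = avR (ev ω) l B' T u := by
    intro ω l B B' hB T u
    unfold average avR
    congr 1
    refine intervalIntegral.integral_congr fun s _ => ?_
    show Complex.exp (Complex.I * (l * s)) • U ω (-s) (B (U ω s u)) = gT (ev ω) l B' u s
    unfold gT ph
    rw [hUe, hUe, hB, Complex.ofReal_mul]
  have hoc : ∀ (ω : Pot d) (ψ : L2 d) (T : ℝ) (S : Set (Fin d → ℤ)), occupation (U ω) ψ T S =
      T⁻¹ * ∫ s in (0 : ℝ)..T, ms S ((ev ω).U s ψ) := by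
    intro ω ψ T S
    unfold occupation ms
    simp_rw [hUe]
  refine ⟨fun A hA l θ hl => ?_, fun A hA g m hg => ?_, ?_, fun e he => ?_⟩
  · obtain ⟨C, B, B', hB, hBA⟩ := field_of hA
    refine ⟨fun u => MW θ u, fun u j => ?_, ?_⟩
    · rw [wave_eq]
      exact MW_apply θ u j
    · have h := waves_int (ν := μ) hd hK hμ hev hB θ (l := l)
        (hl.imp id fun h => Nt.char h)
      filter_upwards [h, hBA, hac] with ω h1 h2 h3 ψ hψ
      refine (h1 ψ (h3 ψ hψ)).congr fun T => ?_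
      exact (hav ω l _ ((MW θ).comp (B ω)) (fun u => by rw [h2]; rfl) T ψ).symm
  · obtain ⟨C, B, B', hB, hBA⟩ := field_of hA
    have hg' : Ap g m := by
      intro ε hε
      obtain ⟨F, c, h1, h2⟩ := hg ε hε
      refine ⟨F, c, h1, fun x => ?_⟩
      simpa only [wave_eq] using h2 x
    obtain ⟨R, hR0, hR⟩ := hg'.bdd
    obtain ⟨E, hE, _⟩ := exists_mult g hR0.le hR
    refine ⟨fun u => E u, fun u j => hE u j, ?_⟩
    filter_upwards [ap_all (ν := μ) hd hK hμ hev hB hg' hE, hBA, hac] with ω h1 h2 h3 ψ hψ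
    refine (h1 ψ (h3 ψ hψ)).congr fun T => ?_
    rw [hav ω 0 (fun u => E (A ω u)) (E.comp (B ω)) (fun u => by rw [h2]; rfl) T ψ,
      hav ω 0 (A ω) (B ω) (fun u => by rw [h2]) T ψ]
  · filter_upwards [res_all (ν := μ) hd hK hμ hev, hac] with ω h1 h3 ψ hψ m hm r
    show Tendsto (fun T : ℝ => occupation (U ω) ψ T {x | ∀ i, x i ≡ r i [ZMOD m]}) atTop
      (𝓝 (‖ψ‖ ^ 2 / (m : ℝ) ^ d))
    simp only [hoc]
    exact h1 ψ (h3 ψ hψ) m hm r
  · filter_upwards [slab_all (ν := μ) hd hK hμ hev e he, hac] with ω h1 h3 ψ hψ w ε hε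
    show ∃ T₀ : ℝ, ∀ T : ℝ, T₀ ≤ T → ∀ c : ℝ,
      occupation (U ω) ψ T {x | |∑ i, e i * (x i : ℝ) - c| ≤ w} ≤ ε
    simp only [hoc]
    exact h1 ψ (h3 ψ hψ) w ε hε

end Pool.Agent.Results.MP_d0f69c_mp.EquidistributionACStates
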