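import Pool.Agent.L7h83.WM.Ma

/-!
# The ergodic theorem for absolutely continuous states of the Anderson model

`Δ_ω = -Δ + ω` on `ℤ^d`, `ω_j` iid with any law of bounded support which is not a point mass, for
instance `P(ω_j = ±1) = 1/2`. Let `A_ω` be any measurable bounded covariant family of operators (no
locality, not necessarily self-adjoint). There is a deterministic bounded Borel function `f`, the
microcanonical average of `A`, such that for almost every `ω` the time averages of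
`e^{isΔ_ω} A_ω e^{-isΔ_ω} ψ` converge in norm to `f(Δ_ω) ψ` for EVERY `ψ` in the absolutely
continuous subspace of `Δ_ω` (if there is one). In particular a covariant family which commutes with
the evolution is a deterministic function of `Δ_ω` on the absolutely continuous subspace: this part
of `Δ_ω` has no covariant symmetries and no covariant decomposition besides the spectral ones.
-/

set_option autoImplicit false

open MeasureTheory Filter Topology
open scoped BigOperators ENNReal NNReal InnerProductSpace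

namespace Pool.Agent.Results.MP_d0f69c_mp.ErgodicTheoremACStates

/-- `ℓ²(ℤ^d)` -/
abbrev L2 (d : ℕ) : Type := lp (fun _ : Fin d → ℤ => ℂ) 2

/-- potentials on `ℤ^d` -/
abbrev Pot (d : ℕ) : Type := (Fin d → ℤ) → ℝ

/-- the operator of the problem, `(Δ_ω u)(j) = -∑_{|n|=1} (u(j+n) - u(j)) + ω_j u(j)` (the unit
vectors `n` are `± e_i`) -/
noncomputable def H {d : ℕ} (ω : Pot d) (u : (Fin d → ℤ) → ℂ) (j : Fin d → ℤ) : ℂ :=
  -(∑ i : Fin d, ((u (j + Pi.single i 1) - u j) + (u (j - Pi.single i 1) - u j))) + (ω j : ℂ) * u j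

/-- `U t = e^{-itΔ_ω}`: norm preserving maps of `ℓ²(ℤ^d)` with `U 0 = 1` and `i ∂_t (U_t u) = Δ_ω U_t u`
at every site -/
structure IsPropagator {d : ℕ} (ω : Pot d) (U : ℝ → L2 d → L2 d) : Prop where
  zero : ∀ u, U 0 u = u
  norm : ∀ t u, ‖U t u‖ = ‖u‖
  schrodinger : ∀ u t j, HasDerivAt (fun s => (U s u) j)
    (-Complex.I * H ω (fun k => (U t u) k) j) t

/-- `m` is the spectral measure of `u`: the finite measure with
`⟨u, e^{-itΔ_ω} u⟩ = ∫ e^{-itE} dm(E)` -/
def IsSpectral {d : ℕ} (U : ℝ → L2 d → L2 d) (u : L2 d) (m : Measure ℝ) : Prop :=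
  IsFiniteMeasure m ∧
    ∀ t : ℝ, ⟪u, U t u⟫_ℂ = ∫ E : ℝ, Complex.exp (-(Complex.I * t * E)) ∂m

/-- `u` is in the absolutely continuous subspace -/
def IsAC {d : ℕ} (U : ℝ → L2 d → L2 d) (u : L2 d) : Prop :=
  ∃ m : Measure ℝ, IsSpectral U u m ∧ m ≪ volume

/-- the law of iid variables with law `μ` on `ℤ^d` -/
noncomputable def iid (d : ℕ) (μ : Measure ℝ) : Measure (Pot d) :=
  Measure.infinitePi fun _ => μ

/-- linear operators -/
def Linear {d : ℕ} (A : Pot d → L2 d → L2 d) : Prop :=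
  ∀ (ω : Pot d) (c : ℂ) (u w : L2 d), A ω (c • u + w) = c • A ω u + A ω w

/-- bounded, uniformly in `ω` -/
def Bounded {d : ℕ} (A : Pot d → L2 d → L2 d) : Prop :=
  ∃ M : ℝ, ∀ (ω : Pot d) (u : L2 d), ‖A ω u‖ ≤ M * ‖u‖

/-- covariant under translations -/
def Covariant {d : ℕ} (A : Pot d → L2 d → L2 d) : Prop :=
  ∀ (z : Fin d → ℤ) (ω : Pot d) (u w : L2 d), (∀ j, w j = u (j + z)) →
    ∀ j, (A (fun k => ω (k + z)) w) j = (A ω u) (j + z)

/-- `A_ω` is an observable: a family of bounded operators, bounded uniformly in `ω`, measurable in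
`ω` and covariant under translations. No locality and no continuity in `ω` is assumed. Examples are
all bounded translation invariant operators and all bounded Borel functions of `Δ_ω`. -/
structure IsObservable {d : ℕ} (μ : Measure ℝ) (A : Pot d → L2 d → L2 d) : Prop where
  linear : Linear A
  bounded : Bounded A
  measurable : ∀ u : L2 d, AEStronglyMeasurable (fun ω => A ω u) (iid d μ)
  covariant : Covariant A

/-- the average over `0 ≤ s ≤ T` of `e^{isΔ_ω} A e^{-isΔ_ω} u` -/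
noncomputable def average {d : ℕ} (U : ℝ → L2 d → L2 d) (A : L2 d → L2 d) (T : ℝ)
    (u : L2 d) : L2 d :=
  ((T : ℂ)⁻¹) • ∫ s in (0 : ℝ)..T, U (-s) (A (U s u))

/-- `w = f(Δ_ω) u`: with the spectral measure `m` of `u`, `⟨e^{-itΔ_ω} u, w⟩ = ∫ e^{itE} f(E) dm(E)`
for all `t`, and `‖w‖² = ∫ |f|² dm` -/
def IsFunctionOf {d : ℕ} (U : ℝ → L2 d → L2 d) (f : ℝ → ℂ) (u w : L2 d) : Prop :=
  ∃ m : Measure ℝ, IsSpectral U u m ∧
    (∀ t : ℝ, ⟪U t u, w⟫_ℂ = ∫ E : ℝ, Complex.exp (Complex.I * t * E) * f E ∂m) ∧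
    ‖w‖ ^ 2 = ∫ E, ‖f E‖ ^ 2 ∂m

/-- `p` is the orthogonal projection of `u` to the absolutely continuous subspace -/
def IsACPart {d : ℕ} (U : ℝ → L2 d → L2 d) (u p : L2 d) : Prop :=
  IsAC U p ∧ ∀ w : L2 d, IsAC U w → ⟪u - p, w⟫_ℂ = 0

/-- `p(ω)` is the part of `δ_0` in the absolutely continuous subspace of `Δ_ω`, and the absolutely
continuous finite measure `κ` is the density of states of this subspace, that is,
`E ⟨p, e^{-itΔ_ω} p⟩ = ∫ e^{-itE} dκ(E)` for all `t` -/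
structure IsDensity {d : ℕ} (μ : Measure ℝ) (U : Pot d → ℝ → L2 d → L2 d)
    (p : Pot d → L2 d) (κ : Measure ℝ) : Prop where
  meas : AEStronglyMeasurable p (iid d μ)
  part : ∀ᵐ ω ∂(iid d μ), IsACPart (U ω) (lp.single 2 0 1) (p ω)
  finite : IsFiniteMeasure κ
  ac : κ ≪ volume
  fourier : ∀ t : ℝ, ∫ ω, ⟪p ω, U ω t (p ω)⟫_ℂ ∂(iid d μ) =
    ∫ E : ℝ, Complex.exp (-(Complex.I * t * E)) ∂κ

/-- the bounded Borel function `f` is the microcanonical average of the observable `A`: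
`E ⟨e^{-itΔ_ω} p, A_ω p⟩ = ∫ e^{itE} f(E) dκ(E)` for all `t`. This determines `f` up to `κ`-null
sets. -/
structure IsMicrocanonical {d : ℕ} (μ : Measure ℝ) (U : Pot d → ℝ → L2 d → L2 d)
    (p : Pot d → L2 d) (κ : Measure ℝ) (A : Pot d → L2 d → L2 d)
    (f : ℝ → ℂ) : Prop where
  meas : Measurable f
  bounded : ∃ M : ℝ, ∀ E, ‖f E‖ ≤ M
  formula : ∀ t : ℝ, ∫ ω, ⟪U ω t (p ω), A ω (p ω)⟫_ℂ ∂(iid d μ) =
    ∫ E : ℝ, Complex.exp (Complex.I * t * E) * f E ∂κ

/-- almost surely, `Q ω ψ` holds for every `ψ` in the absolutely continuous subspace of `Δ_ω` -/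
def ForACStates {d : ℕ} (μ : Measure ℝ) (U : Pot d → ℝ → L2 d → L2 d)
    (Q : Pot d → L2 d → Prop) : Prop :=
  ∀ᵐ ω ∂(iid d μ), ∀ ψ : L2 d, IsAC (U ω) ψ → Q ω ψ

/-- the time average over `[0,T]` of the observable applied to `ψ` tends to `f(Δ_ω) ψ` in norm as
`T → ∞` -/
def Equilibrates {d : ℕ} (U : ℝ → L2 d → L2 d) (A : L2 d → L2 d) (f : ℝ → ℂ) (ψ : L2 d) : Prop :=
  ∃ χ : L2 d, IsFunctionOf U f ψ χ ∧ Tendsto (fun T : ℝ => average U A T ψ) atTop (𝓝 χ)

/-- `A_ω` commutes with the evolution on the absolutely continuous subspace, almost surely -/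
def IsConserved {d : ℕ} (μ : Measure ℝ) (U : Pot d → ℝ → L2 d → L2 d)
    (A : Pot d → L2 d → L2 d) : Prop :=
  ForACStates μ U fun ω ψ => ∀ t : ℝ, A ω (U ω t ψ) = U ω t (A ω ψ)

open Pool.Agent.H5R2 Pool.Agent.Y662.ERG Pool.Agent.L7h83.WM

theorem sol_of_prop {d : ℕ} {ω : (Fin d → ℤ) → ℝ} {U : ℝ → L2 d → L2 d}
    (hU : IsPropagator ω U) (u : L2 d) :
    NB.IsSol (-1) (fun x => 2 * d + ω x) (fun t => U t u) (fun _ => 0) := by
  refine ⟨fun T => ⟨‖u‖, fun t _ => (hU.norm t u).le⟩, fun t x => ?_⟩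
  have h := hU.schrodinger u t x
  have e := NB.FIN.hop_eq ω (fun k => (U t u) k) x
  have e2 : -Complex.I * (NB.hopf (-1) (fun y => (U t u) y) x +
      (((fun x => 2 * d + ω x) x : ℝ) : ℂ) * (U t u) x) + ((0 : L2 d) : (Fin d → ℤ) → ℂ) x =
      -Complex.I * H ω (fun k => (U t u) k) x := by
    have e3 : H ω (fun k => (U t u) k) x = -(∑ i : Fin d,
        (((U t u) (x + Pi.single i 1) - (U t u) x) + ((U t u) (x - Pi.single i 1) - (U t u) x))) +
        (ω x : ℂ) * (U t u) x := rfl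
    rw [e3, ← e]
    simp
  rw [e2]
  exact h

theorem prop_of_grp {d : ℕ} {ω : (Fin d → ℤ) → ℝ} {W : NB.UG (NB.L2 (NB.Site d))}
    (hW : NB.IsGrp (-1) (fun x => 2 * d + ω x) W) : IsPropagator ω (fun t u => W.U t u) := by
  refine ⟨W.zero', W.norm', fun u t x => ?_⟩
  have h := (hW u).2 t x
  have e := NB.FIN.hop_eq ω (fun k => (W.U t u) k) x
  have e3 : H ω (fun k => (W.U t u) k) x = -(∑ i : Fin d,
        (((W.U t u) (x + Pi.single i 1) - (W.U t u) x) +
          ((W.U t u) (x - Pi.single i 1) - (W.U t u) x))) + (ω x : ℂ) * (W.U t u) x := rfl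
  rw [e3, ← e]
  simpa using h

theorem prop_eq {d : ℕ} {ω : (Fin d → ℤ) → ℝ} {W : NB.UG (NB.L2 (NB.Site d))}
    (hW : NB.IsGrp (-1) (fun x => 2 * d + ω x) W) {U : ℝ → L2 d → L2 d}
    (hU : IsPropagator ω U) (t : ℝ) (u : L2 d) : U t u = W.U t u := by
  have h := NB.ALL.a_UN d (-1) _ W hW (fun t => U t u) (fun _ => 0)
    continuous_const (sol_of_prop hU u) t
  simpa [hU.zero u] using h

/-- the bounded operator -/
noncomputable def toOp {d : ℕ} {A : Pot d → L2 d → L2 d} (hl : Linear A) (hb : Bounded A)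
    (ω : Pot d) : L2 d →L[ℂ] L2 d :=
  LinearMap.mkContinuousOfExistsBound
    { toFun := A ω
      map_add' := fun u w => by
        have := hl ω 1 u w
        rwa [one_smul, one_smul] at this
      map_smul' := fun c u => by
        have h1 := hl ω c u 0
        have h2 := hl ω (-1) 0 0
        rw [smul_zero, add_zero, neg_one_smul, neg_add_cancel] at h2
        rw [add_zero, h2, add_zero] at h1
        exact h1 } (by
      obtain ⟨M, hM⟩ := hb
      exact ⟨M, hM ω⟩)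

/-- an observable agrees almost surely with a measurable field -/
theorem field_of {d : ℕ} {μ : Measure ℝ} [IsProbabilityMeasure μ]
    {A₀ : Pot d → L2 d → L2 d} (hA : IsObservable μ A₀) :
    ∃ (C : ℝ) (B B' : Pot d → L2 d →L[ℂ] L2 d), FT (fun _ => 1) C B B' ∧
      ∀ᵐ ω ∂(iid d μ), ∀ u, A₀ ω u = B ω u := by
  obtain ⟨M, hM⟩ := hA.bounded
  have hM0 : 0 ≤ M := by
    have h1 := hM 0 (NB.dl 0)
    rw [NB.STAT.norm_dl, mul_one] at h1
    exact (norm_nonneg _).trans h1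
  set A : Pot d → L2 d →L[ℂ] L2 d := toOp hA.linear hA.bounded with hAdef
  have hAu : ∀ ω u, A ω u = A₀ ω u := fun ω u => rfl
  have hAn : ∀ ω, ‖A ω‖ ≤ M := fun ω => ContinuousLinearMap.opNorm_le_bound _ hM0 (hM ω)
  have hcov : ∀ (z : NB.Site d) (S : L2 d →L[ℂ] L2 d), NB.IsShift z S → ∀ V ψ,
      A (fun y => V (y + z)) (S ψ) = S (A V ψ) := by
    intro z S hS V ψ
    ext j
    rw [hS]
    exact hA.covariant z V ψ (S ψ) (fun k => hS ψ k) j
  have hcov' : ∀ (z : NB.Site d) (S : L2 d →L[ℂ] L2 d), NB.IsShift z S → ∀ V ψ,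
      (ContinuousLinearMap.adjoint (A fun y => V (y + z))) (S ψ) =
        S (ContinuousLinearMap.adjoint (A V) ψ) := by
    intro z S hS V ψ
    obtain ⟨T, hT⟩ := (NB.t_OPS d).1 (-z)
    refine ext_inner_left ℂ fun f => ?_
    have h1 : S (T f) = f := NBA.ZAC.inv1 hS hT f
    rw [ContinuousLinearMap.adjoint_inner_right]
    conv_lhs => rw [← h1]
    rw [hcov z S hS, NB.STAT.shift_inner z S T hS hT, NBA.ZAC.inv2 hS hT]
    have h2 : ⟪T f, ContinuousLinearMap.adjoint (A V) ψ⟫_ℂ =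
        ⟪f, S (ContinuousLinearMap.adjoint (A V) ψ)⟫_ℂ := by
      have hS2 : NB.IsShift (-(-z)) S := by rw [neg_neg]; exact hS
      exact NB.STAT.shift_inner (-z) T S hT hS2 f _
    rw [← h2, ContinuousLinearMap.adjoint_inner_right]
  obtain ⟨B, B', h1, h2, _⟩ := exists_mod (χ := fun _ => 1) (C := M) (A := A)
    (A' := fun V => ContinuousLinearMap.adjoint (A V)) μ
    (fun V f g => (ContinuousLinearMap.adjoint_inner_right (A V) f g).symm)
    (fun V ψ => ((A V).le_opNorm ψ).trans (mul_le_mul_of_nonneg_right (hAn V) (norm_nonneg _)))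
    (fun V ψ => ((ContinuousLinearMap.adjoint (A V)).le_opNorm ψ).trans
      (mul_le_mul_of_nonneg_right (by rw [LinearIsometryEquiv.norm_map]; exact hAn V)
        (norm_nonneg _)))
    (fun x => hA.measurable _) (fun z => by simp)
    (fun z S hS V ψ => by rw [one_smul]; exact hcov z S hS V ψ)
    (fun z S hS V ψ => by rw [map_one, one_smul]; exact hcov' z S hS V ψ)
  refine ⟨M, B, B', h1, h2.mono fun V hV u => ?_⟩
  rw [hV.1]
  rfl

/-- Let `d ≥ 1` and let `μ` be a law with bounded support which is not a point mass. For every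
potential the unitary group exists and is unique. There are the part `p(ω)` of `δ_0` in the
absolutely continuous subspace and its density of states `κ` such that for every observable `A`
(measurable, bounded, covariant, not necessarily local or self-adjoint) there is a bounded Borel
function `f`, not depending on `ω`, which is the microcanonical average of `A`, and:
(1) almost surely, for every `ψ` in the absolutely continuous subspace of `Δ_ω`, the time average
over `[0,T]` of the observable applied to `ψ` tends to `f(Δ_ω) ψ` in norm as `T → ∞`;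
(2) if `A_ω` commutes with the evolution on the absolutely continuous subspace, then almost surely
`A_ω ψ = f(Δ_ω) ψ` for every `ψ` in the absolutely continuous subspace. -/
theorem result (d : ℕ) (hd : 1 ≤ d) (μ : Measure ℝ) [IsProbabilityMeasure μ]
    (hb : ∃ K : ℝ, ∀ᵐ r ∂μ, |r| ≤ K) (hμ : ∀ r : ℝ, μ {r} ≠ 1) :
    (∀ ω : Pot d, ∃! U : ℝ → L2 d → L2 d, IsPropagator ω U) ∧
    ∀ U : Pot d → ℝ → L2 d → L2 d, (∀ ω, IsPropagator ω (U ω)) →
      ∃ (p : Pot d → L2 d) (κ : Measure ℝ), IsDensity μ U p κ ∧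
        ∀ A : Pot d → L2 d → L2 d, IsObservable μ A →
          ∃ f : ℝ → ℂ, IsMicrocanonical μ U p κ A f ∧
            (ForACStates μ U fun ω ψ => Equilibrates (U ω) (A ω) f ψ) ∧
            (IsConserved μ U A → ForACStates μ U fun ω ψ => IsFunctionOf (U ω) f ψ (A ω ψ)) := by
  obtain ⟨K, hK⟩ := hb
  refine ⟨fun ω => ?_, fun U hU => ?_⟩
  · obtain ⟨W, hW⟩ := NB.ALL.a_EX d (-1) (fun x => 2 * d + ω x)
    refine ⟨fun t u => W.U t u, prop_of_grp hW, fun U hU => ?_⟩
    funext t u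
    exact prop_eq hW hU t u
  choose ev hev using fun ω : NB.Site d → ℝ => NB.ALL.a_EX d (-1) (fun x => 2 * d + ω x)
  have hUe : ∀ ω t u, U ω t u = (ev ω).U t u := fun ω t u => prop_eq (hev ω) (hU ω) t u
  obtain ⟨κ, hκ1, hκ2, hκ3, hmain⟩ := main_all hd hK hμ hev
  have hbd := bd_ae (d := d) hK
  have hac_iff : ∀ ω : (Fin d → ℤ) → ℝ, (∀ x, |ω x| ≤ K) → ∀ u : L2 d,
      IsAC (U ω) u ↔ Pool.Agent.TH980.IM.spm (Pool.Agent.TH980.IM.HV_sa K ω) u ≪ volume := by
    intro ω h1 u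
    have hUx : ∀ t u, U ω t u = Ex (Pool.Agent.TH980.IM.HV K ω) t u := fun t u => by
      rw [hUe, grp_Ex h1 (hev ω)]
    constructor
    · rintro ⟨m, ⟨hm1, hm2⟩, hm3⟩
      have hmm : m = Pool.Agent.TH980.IM.spm (Pool.Agent.TH980.IM.HV_sa K ω) u :=
        spm_unique _ u m fun t => by rw [← hUx, hm2 t]
      rw [← hmm]
      exact hm3
    · intro h
      refine ⟨_, ⟨inferInstance, fun t => ?_⟩, h⟩
      rw [hUx, Ex_spm]
  refine ⟨fun ω => PA K ω (NB.dl 0), κ, ⟨?_, ?_, hκ1, hκ2, fun t => ?_⟩, fun A hA => ?_⟩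
  · exact PA_aesm K μ aestronglyMeasurable_const
  · have hbd' : ∀ᵐ ω ∂(iid d μ), ∀ x, |ω x| ≤ K := hbd
    filter_upwards [hbd'] with ω h1
    refine ⟨(hac_iff ω h1 _).2 (acP_ac _ _), fun w hw => ?_⟩
    exact acP_orth _ ((hac_iff ω h1 w).1 hw) _
  · simp only [hUe]
    exact hκ3 t
  obtain ⟨C, B, B', hB, hBA⟩ := field_of hA
  obtain ⟨f, w, hf1, hf2, hmic, hall⟩ := hmain B B' C hB
  have hall' : ∀ᵐ ω ∂(iid d μ), (∀ x, |ω x| ≤ K) ∧ ∀ ψ : L2 d,
      Pool.Agent.TH980.IM.spm (Pool.Agent.TH980.IM.HV_sa K ω) ψ ≪ volume →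
      Tendsto (fun T : ℝ => ((T : ℂ)⁻¹) • ∫ s in (0 : ℝ)..T,
        (ev ω).U (-s) (B ω ((ev ω).U s ψ))) atTop (𝓝 (w ω ψ)) ∧
      (∀ t : ℝ, ⟪(ev ω).U t ψ, w ω ψ⟫_ℂ = ∫ E : ℝ, Complex.exp (Complex.I * t * E) * f E
        ∂(Pool.Agent.TH980.IM.spm (Pool.Agent.TH980.IM.HV_sa K ω) ψ)) ∧
      ‖w ω ψ‖ ^ 2 = ∫ E, ‖f E‖ ^ 2
        ∂(Pool.Agent.TH980.IM.spm (Pool.Agent.TH980.IM.HV_sa K ω) ψ) := hall
  have hfun : ∀ᵐ ω ∂(iid d μ), ∀ ψ : L2 d, IsAC (U ω) ψ → IsFunctionOf (U ω) f ψ (w ω ψ) ∧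
      Tendsto (fun T : ℝ => average (U ω) (A ω) T ψ) atTop (𝓝 (w ω ψ)) := by
    filter_upwards [hall', hBA] with ω ⟨h1, h2⟩ h3 ψ hψ
    obtain ⟨g1, g2, g3⟩ := h2 ψ ((hac_iff ω h1 ψ).1 hψ)
    refine ⟨⟨_, ⟨inferInstance, fun t => ?_⟩, fun t => ?_, g3⟩, ?_⟩
    · rw [hUe, grp_Ex h1 (hev ω), Ex_spm (Pool.Agent.TH980.IM.HV_sa K ω)]
    · rw [hUe]
      exact g2 t
    · refine g1.congr fun T => ?_
      unfold average
      congr 1
      refine intervalIntegral.integral_congr fun s _ => ?_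
      show (ev ω).U (-s) (B ω ((ev ω).U s ψ)) = U ω (-s) (A ω (U ω s ψ))
      rw [hUe, hUe, h3]
  refine ⟨f, ⟨hf1, ⟨2 * C, hf2⟩, fun t => ?_⟩, ?_, fun hcons => ?_⟩
  · rw [← hmic t]
    refine integral_congr_ae ?_
    filter_upwards [hBA] with ω h3
    show ⟪U ω t (PA K ω (NB.dl 0)), A ω (PA K ω (NB.dl 0))⟫_ℂ = _
    rw [hUe, h3]
  · filter_upwards [hfun] with ω h1 ψ hψ
    exact ⟨w ω ψ, (h1 ψ hψ).1, (h1 ψ hψ).2⟩
  · filter_upwards [hfun, hcons] with ω h1 h2 ψ hψ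
    obtain ⟨g1, g2⟩ := h1 ψ hψ
    have e : ∀ᶠ T : ℝ in atTop, average (U ω) (A ω) T ψ = A ω ψ := by
      filter_upwards [eventually_gt_atTop (0 : ℝ)] with T hT
      have hTc : (T : ℂ) ≠ 0 := by exact_mod_cast hT.ne'
      have e1 : ∫ s in (0 : ℝ)..T, U ω (-s) (A ω (U ω s ψ)) = ∫ _s in (0 : ℝ)..T, A ω ψ := by
        refine intervalIntegral.integral_congr fun s _ => ?_
        show U ω (-s) (A ω (U ω s ψ)) = A ω ψ
        rw [h2 ψ hψ s, hUe, hUe, ← (ev ω).add', neg_add_cancel, (ev ω).zero']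
      have e3 : T • A ω ψ = (T : ℂ) • A ω ψ := (Complex.coe_smul T (A ω ψ)).symm
      unfold average
      rw [e1, intervalIntegral.integral_const, sub_zero, e3, smul_smul, inv_mul_cancel₀ hTc,
        one_smul]
    have e2 := tendsto_nhds_unique (g2.congr' e) tendsto_const_nhds
    rw [← e2]
    exact g1

end Pool.Agent.Results.MP_d0f69c_mp.ErgodicTheoremACStates
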