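import Pool.Agent.W792.WA.All4

set_option autoImplicit false

/-!
# One change of the kinetic energy for all laws of the disorder and all large kinetic energies

The Bernoulli model of the problem, `ω_j = ± 1` fair signs, with the kinetic energy
`t (-Δ + b(-Δ))` in place of `-Δ`, in EVERY dimension `d ≥ 1`: for every `ε > 0` there is ONE
continuous function `b` with `|b| ≤ ε` and hopping amplitudes at most `ε / (1 + |x|) ^ (d / 3)` such
that for all large `t` the operator `t (-Δ + b(-Δ)) + ω` has almost surely purely absolutely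
continuous spectrum filling `(0, 4 d t)`, the whole interior of the spectrum of `- t Δ`. The same
`b` works for all laws of the disorder with a moment of order `60` which are not a point mass (with
`t ≥ t₀`, `t₀` depending on the law), for instance the uniform laws on `[-c, c]`.
-/

namespace Pool.Agent.Results.MP_d0f69c_mp.OneKineticChange

open MeasureTheory
open scoped ENNReal

noncomputable section

/-- The hopping amplitudes of `b(-Δ)` on `ℤ^d`: the Fourier coefficients of the symbol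
`b(∑ i (2 - 2 cos (2 π k_i)))`. -/
def hopping (b : ℝ → ℝ) (d : ℕ) (x : Fin d → ℤ) : ℂ :=
  UnitAddTorus.mFourierCoeff
    (fun k : UnitAddTorus (Fin d) => ((b (∑ i, (2 - 2 * (fourier 1 (k i)).re)) : ℝ) : ℂ)) x

/-- `(t (-Δ + b(-Δ)) + ω) u (x)`. -/
def H (b : ℝ → ℝ) (t : ℝ) {d : ℕ} (ω : (Fin d → ℤ) → ℝ) (u : (Fin d → ℤ) → ℂ)
    (x : Fin d → ℤ) : ℂ :=
  (t : ℂ) * ((∑ i : Fin d, (2 * u x - u (x + Pi.single i 1) - u (x - Pi.single i 1)))
    + ∑' y, hopping b d (x - y) * u y) + ((ω x : ℝ) : ℂ) * u x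

/-- `u` is square summable and `(H - z) u = δ_x`, i.e. `u = (H - z)⁻¹ δ_x`. -/
def IsGreen (b : ℝ → ℝ) (t : ℝ) {d : ℕ} (ω : (Fin d → ℤ) → ℝ) (z : ℂ) (x : Fin d → ℤ)
    (u : (Fin d → ℤ) → ℂ) : Prop :=
  Summable (fun y => ‖u y‖ ^ 2) ∧ ∀ y, H b t ω u y - z * u y = if y = x then 1 else 0

/-- Purely absolutely continuous spectrum filling the interval `(a₁, a₂)`: for every site `x` the
spectral measure `μ` of `δ_x`, i.e. the finite measure with
`⟨δ_x, (H - z)⁻¹ δ_x⟩ = ∫ dμ(E) / (E - z)`, has on `(a₁, a₂)` a density `h`, positive almost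
everywhere there. -/
def ACOn (b : ℝ → ℝ) (t : ℝ) {d : ℕ} (ω : (Fin d → ℤ) → ℝ) (a₁ a₂ : ℝ) : Prop :=
  ∀ x : Fin d → ℤ, ∃ (μ : Measure ℝ) (h : ℝ → ℝ), IsFiniteMeasure μ ∧
    (∀ z : ℂ, 0 < z.im → (∃ u, IsGreen b t ω z x u) ∧
      ∀ u, IsGreen b t ω z x u → u x = ∫ E : ℝ, 1 / ((E : ℂ) - z) ∂μ) ∧
    Measurable h ∧ (∀ᵐ E ∂(volume.restrict (Set.Ioo a₁ a₂)), 0 < h E) ∧
    μ.restrict (Set.Ioo a₁ a₂)
      = (volume.restrict (Set.Ioo a₁ a₂)).withDensity fun E => ENNReal.ofReal (h E)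

theorem green_iff {b : ℝ → ℝ} {t : ℝ} (ht : 0 < t) {d : ℕ} (B : C(UnitAddTorus (Fin d), ℝ))
    (hB : ∀ k, B k = b (W792.LL.lap d k)) {ω : (Fin d → ℤ) → ℝ} (z : ℂ) (x : Fin d → ℤ)
    (u : (Fin d → ℤ) → ℂ) :
    W792.LL.Sol (W792.LL.hopK (t • (W792.LL.lap d + B))) 1 ω z x u ↔ IsGreen b t ω z x u := by
  have e0 : (fun k : UnitAddTorus (Fin d) => ((B k : ℝ) : ℂ))
      = fun k => ((b (∑ i, (2 - 2 * (fourier 1 (k i)).re)) : ℝ) : ℂ) := by
    funext k
    rw [hB]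
    rfl
  have ht' : (t : ℂ) ≠ 0 := by exact_mod_cast ht.ne'
  -- the equation with the kinetic energy one
  have h1 : ∀ (u' : (Fin d → ℤ) → ℂ) (w : ℂ),
      W792.LL.Sol (W792.LL.hopK (W792.LL.lap d + B)) (1 / t) ω w x u' ↔
      Summable (fun y => ‖u' y‖ ^ 2) ∧ ∀ y,
        ((∑ i : Fin d, (2 * u' y - u' (y + Pi.single i 1) - u' (y - Pi.single i 1)))
          + (∑' y', hopping b d (y - y') * u' y') + (((1 / t) * ω y : ℝ) : ℂ) * u' y) - w * u' y
            = if y = x then 1 else 0 := by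
    intro u' w
    rw [W792.WA.Br.sol_iff B (1 / t) ω w x u', e0]
    rfl
  have h2 : W792.LL.Sol (W792.LL.hopK (t • (W792.LL.lap d + B))) 1 ω z x u ↔
      W792.LL.Sol (W792.LL.hopK (W792.LL.lap d + B)) (1 / t) ω (z / t) x
        (fun y => (t : ℂ) * u y) := by
    unfold W792.LL.Sol
    have hs : Summable (fun y => ‖u y‖ ^ 2) ↔ Summable (fun y => ‖(t : ℂ) * u y‖ ^ 2) := by
      have e : (fun y => ‖(t : ℂ) * u y‖ ^ 2) = fun y => ‖(t : ℂ)‖ ^ 2 * ‖u y‖ ^ 2 := by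
        funext y
        rw [norm_mul, mul_pow]
      rw [e]
      exact (summable_mul_left_iff (pow_ne_zero 2 (norm_ne_zero_iff.2 ht'))).symm
    refine and_congr hs (forall_congr' fun y => ?_)
    have e1 : ∑' y', W792.LL.hopK (t • (W792.LL.lap d + B)) (y - y') * u y'
        = ∑' y', W792.LL.hopK (W792.LL.lap d + B) (y - y') * ((t : ℂ) * u y') := by
      refine tsum_congr fun y' => ?_
      rw [W792.WA.Br.hopK_smul]
      ring
    rw [e1]
    have e2 : (((1 / t) * ω y : ℝ) : ℂ) * ((t : ℂ) * u y) = ((1 * ω y : ℝ) : ℂ) * u y := by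
      push_cast
      field_simp
    rw [e2]
    have e3 : z / t * ((t : ℂ) * u y) = z * u y := by
      field_simp
    rw [e3]
  rw [h2, h1]
  unfold IsGreen H
  have hs : Summable (fun y => ‖(t : ℂ) * u y‖ ^ 2) ↔ Summable (fun y => ‖u y‖ ^ 2) := by
    have e : (fun y => ‖(t : ℂ) * u y‖ ^ 2) = fun y => ‖(t : ℂ)‖ ^ 2 * ‖u y‖ ^ 2 := by
      funext y
      rw [norm_mul, mul_pow]
    rw [e]
    exact summable_mul_left_iff (pow_ne_zero 2 (norm_ne_zero_iff.2 ht'))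
  refine and_congr hs (forall_congr' fun y => ?_)
  have e4 : (∑' y', hopping b d (y - y') * ((t : ℂ) * u y'))
      = (t : ℂ) * ∑' y', hopping b d (y - y') * u y' := by
    rw [← tsum_mul_left]
    refine tsum_congr fun y' => ?_
    ring
  have e5 : (∑ i : Fin d, (2 * ((t : ℂ) * u y) - (t : ℂ) * u (y + Pi.single i 1)
      - (t : ℂ) * u (y - Pi.single i 1)))
      = (t : ℂ) * ∑ i : Fin d, (2 * u y - u (y + Pi.single i 1) - u (y - Pi.single i 1)) := by
    rw [Finset.mul_sum]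
    refine Finset.sum_congr rfl fun i _ => ?_
    ring
  have e6 : (((1 / t) * ω y : ℝ) : ℂ) * ((t : ℂ) * u y) = ((ω y : ℝ) : ℂ) * u y := by
    push_cast
    field_simp
  have e7 : z / t * ((t : ℂ) * u y) = z * u y := by
    field_simp
  rw [e4, e5, e6, e7, mul_add]

theorem ac_of {b : ℝ → ℝ} {t : ℝ} (ht : 0 < t) {d : ℕ} (B : C(UnitAddTorus (Fin d), ℝ))
    (hB : ∀ k, B k = b (W792.LL.lap d k)) {ω : (Fin d → ℤ) → ℝ} {a₁ a₂ : ℝ}
    (h : W792.WA.ACIK (W792.LL.lap d + B) (1 / t) ω a₁ a₂) : ACOn b t ω (t * a₁) (t * a₂) := by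
  intro x
  obtain ⟨μ, g, h1, h2, h3, h4, h5⟩ := W792.WA.Br.scale_up (W792.LL.lap d + B) ht h x
  refine ⟨μ, g, h1, fun z hz => ?_, h3, h4, h5⟩
  have e := green_iff ht B hB (ω := ω) z x
  obtain ⟨⟨w, hw⟩, h6⟩ := h2 z hz
  exact ⟨⟨w, (e w).1 hw⟩, fun u hu => h6 u ((e u).2 hu)⟩

/-- The law of a fair sign `± 1`. -/
def signLaw : Measure ℝ :=
  (1 / 2 : ℝ≥0∞) • Measure.dirac 1 + (1 / 2 : ℝ≥0∞) • Measure.dirac (-1)

instance : IsProbabilityMeasure signLaw := by
  refine ⟨?_⟩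
  unfold signLaw
  rw [Measure.add_apply, Measure.smul_apply, Measure.smul_apply, measure_univ, measure_univ,
    smul_eq_mul, mul_one]
  exact ENNReal.add_halves 1

/-- **Theorem.** Let `d ≥ 1` and `ε > 0`. There is a continuous `b` with `|b| ≤ ε` and hopping
amplitudes at most `ε / (1 + |x|) ^ (d / 3)`, `|x| = max |x_i|`, such that
(1) for every probability law `ν` with a moment of order `60` which is not a point mass there is
`t₀ > 0` such that for all `t ≥ t₀` and almost every iid potential `ω` with law `ν` the spectrum of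
`t (-Δ + b(-Δ)) + ω` in `(0, 4 d t)` is purely absolutely continuous, and it fills this interval;
(2) this holds in particular for the independent fair signs `ω_j = ± 1` of the problem. -/
theorem result (d : ℕ) (hd : 1 ≤ d) (ε : ℝ) (hε : 0 < ε) :
    ∃ b : ℝ → ℝ, Continuous b ∧ (∀ s, |b s| ≤ ε) ∧
      (∀ x : Fin d → ℤ, ‖hopping b d x‖ ≤ ε / (1 + ‖x‖) ^ ((d : ℝ) / 3)) ∧
      (∀ (ν : Measure ℝ) [IsProbabilityMeasure ν], Integrable (fun s : ℝ => s ^ 60) ν →
        (∀ a : ℝ, ν {a} < 1) → ∃ t₀ : ℝ, 0 < t₀ ∧ ∀ t : ℝ, t₀ ≤ t →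
        ∀ᵐ ω ∂(Measure.infinitePi fun _ : Fin d → ℤ => ν), ACOn b t ω 0 (4 * d * t)) ∧
      ∃ t₀ : ℝ, 0 < t₀ ∧ ∀ t : ℝ, t₀ ≤ t →
        ∀ᵐ ω ∂(Measure.infinitePi fun _ : Fin d → ℤ => signLaw), ACOn b t ω 0 (4 * d * t) := by
  obtain ⟨b, hb1, hb2, hb3, hb4⟩ := W792.WA.Br.lap_mainD W792.WA.Al.kfdc d hd ε hε
  have key : ∀ (ν : Measure ℝ) [IsProbabilityMeasure ν], Integrable (fun s : ℝ => s ^ 60) ν →
        (∀ a : ℝ, ν {a} < 1) → ∃ t₀ : ℝ, 0 < t₀ ∧ ∀ t : ℝ, t₀ ≤ t →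
        ∀ᵐ ω ∂(Measure.infinitePi fun _ : Fin d → ℤ => ν), ACOn b t ω 0 (4 * d * t) := by
    intro ν _ h1 h2
    obtain ⟨lam₀, h0, h3⟩ := hb4 ν h1 h2
    refine ⟨1 / lam₀, by positivity, fun t ht => ?_⟩
    have ht0 : 0 < t := lt_of_lt_of_le (by positivity) ht
    have ht1 : 1 / t ≤ lam₀ := by
      rw [div_le_iff₀ ht0]
      rw [div_le_iff₀ h0] at ht
      linarith
    have h4 := h3 (1 / t) (by positivity) ht1 (W792.WA.gK ⟨b, hb1⟩ d) (fun k => rfl)
    change ∀ᵐ ω ∂(W792.WA.Pn ν (Fin d → ℤ)), _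
    filter_upwards [h4] with ω hω
    have h5 := ac_of (b := b) ht0 (W792.WA.gK ⟨b, hb1⟩ d) (fun k => rfl) hω
    have e1 : t * 0 = 0 := mul_zero t
    have e2 : t * (4 * (d : ℝ)) = 4 * d * t := by ring
    rwa [e1, e2] at h5
  refine ⟨b, hb1, hb2, hb3, key, key signLaw ?_ ?_⟩
  · unfold signLaw
    refine Integrable.add_measure ?_ ?_
    · exact (integrable_dirac (by simp)).smul_measure (by simp)
    · exact (integrable_dirac (by simp)).smul_measure (by simp)
  · intro a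
    unfold signLaw
    rw [Measure.add_apply, Measure.smul_apply, Measure.smul_apply,
      Measure.dirac_apply' _ (measurableSet_singleton a),
      Measure.dirac_apply' _ (measurableSet_singleton a)]
    by_cases h1 : a = 1
    · subst h1
      simp [Set.indicator]
      norm_num
    · by_cases h2 : a = -1
      · subst h2
        simp [Set.indicator]
        norm_num
      · simp [Set.indicator, Ne.symm h1, Ne.symm h2]

end

end Pool.Agent.Results.MP_d0f69c_mp.OneKineticChange
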